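import Pool.Agent.Y957.AD.Basic

/-!
Project AD, part AD-SV: upper bound for the number of integers free of the primes of `[e^a, e^b)`.
-/

set_option autoImplicit false

namespace Pool.Agent.Y500.AD

open Finset
open Pool.Agent.Y957.AD

/-- indicator of the integers free of the primes of `P` -/
noncomputable def gf (P : Finset ℕ) (m : ℕ) : ℝ := if ∀ p ∈ P, ¬ p ∣ m then 1 else 0

theorem gf_nonneg (P : Finset ℕ) (m : ℕ) : 0 ≤ gf P m := by
  unfold gf; split_ifs <;> norm_num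

theorem gf_anti {P : Finset ℕ} {d m : ℕ} (h : d ∣ m) : gf P m ≤ gf P d := by
  unfold gf
  by_cases h1 : ∀ p ∈ P, ¬ p ∣ m
  · have h2 : ∀ p ∈ P, ¬ p ∣ d := fun p hp hd => h1 p hp (hd.trans h)
    rw [if_pos h1, if_pos h2]
  · rw [if_neg h1]
    split_ifs <;> norm_num

/-- the function `1/n` as a monoid homomorphism -/
noncomputable def invHom : ℕ →* ℝ where
  toFun n := ((n : ℕ) : ℝ)⁻¹
  map_one' := by simp
  map_mul' a b := by push_cast; rw [mul_inv]

theorem telescope (K : ℕ) (hK : 1 ≤ K) :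
    ∑ p ∈ Ioc 1 K, 1 / ((p : ℝ) * (p - 1)) ≤ 1 - 1 / (K : ℝ) := by
  induction K, hK using Nat.le_induction with
  | base => simp
  | succ L hL ih =>
    rw [sum_Ioc_succ_top (by omega)]
    have hL0 : (0 : ℝ) < L := by exact_mod_cast hL
    have e : 1 / (((L + 1 : ℕ) : ℝ) * (((L + 1 : ℕ) : ℝ) - 1)) = 1 / L - 1 / ((L + 1 : ℕ) : ℝ) := by
      push_cast
      have h1 : (L : ℝ) + 1 ≠ 0 := by positivity
      have h2 : (L : ℝ) + 1 - 1 ≠ 0 := by
        have : (L : ℝ) + 1 - 1 = L := by ring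
        rw [this]; exact hL0.ne'
      field_simp
      ring
    linarith

theorem harm_le (P : Finset ℕ) (K : ℕ) (hK : 1 ≤ K) (hP : P ⊆ (Icc 1 K).filter Nat.Prime) :
    ∑ m ∈ Icc 1 K, gf P m / m ≤
      Real.exp (∑ p ∈ (Icc 1 K).filter Nat.Prime, 1 / (p : ℝ) - WP P + 1) := by
  classical
  set s := (Icc 1 K).filter Nat.Prime \ P with hs
  have hsp : ∀ p ∈ s, p.Prime ∧ 1 < p ∧ p ≤ K := by
    intro p hp
    rw [hs, mem_sdiff, mem_filter, mem_Icc] at hp
    exact ⟨hp.1.2, hp.1.2.one_lt, hp.1.1.2⟩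
  have hlt : ∀ {p : ℕ}, p.Prime → ‖invHom p‖ < 1 := by
    intro p hp
    show ‖((p : ℕ) : ℝ)⁻¹‖ < 1
    rw [norm_inv, Real.norm_natCast]
    exact inv_lt_one_of_one_lt₀ (by exact_mod_cast hp.one_lt)
  have hsum := (EulerProduct.summable_and_hasSum_factoredNumbers_prod_filter_prime_geometric
    (f := invHom) hlt s).2
  set A := (Icc 1 K).filter (fun m => ∀ p ∈ P, ¬ p ∣ m) with hA
  have hAm : ∀ m ∈ A, m ∈ Nat.factoredNumbers s := by
    intro m hm
    rw [hA, mem_filter, mem_Icc] at hm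
    rw [Nat.mem_factoredNumbers]
    refine ⟨by omega, fun p hp => ?_⟩
    have hp1 := Nat.prime_of_mem_primeFactorsList hp
    have hp2 := Nat.dvd_of_mem_primeFactorsList hp
    rw [hs, mem_sdiff, mem_filter, mem_Icc]
    exact ⟨⟨⟨hp1.one_lt.le, (Nat.le_of_dvd (by omega) hp2).trans hm.1.2⟩, hp1⟩,
      fun h => hm.2 p h hp2⟩
  have h1 : ∑ m ∈ Icc 1 K, gf P m / m = ∑ m ∈ A, invHom m := by
    rw [hA, sum_filter]
    apply sum_congr rfl
    intro m _
    unfold gf
    split_ifs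
    · rw [one_div]; rfl
    · rw [zero_div]
  rw [h1, ← sum_subtype_of_mem (fun m => invHom m) hAm]
  refine (sum_le_hasSum _ (fun i _ => ?_) hsum).trans ?_
  · show (0 : ℝ) ≤ (((i : ℕ) : ℕ) : ℝ)⁻¹
    positivity
  -- the product
  have h2 : ∏ p ∈ s with p.Prime, (1 - invHom p)⁻¹ ≤
      ∏ p ∈ s with p.Prime, Real.exp (1 / (p : ℝ) + 1 / ((p : ℝ) * (p - 1))) := by
    apply prod_le_prod
    · intro p hp
      rw [mem_filter] at hp
      have := hlt hp.2
      rw [Real.norm_eq_abs, abs_lt] at this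
      exact inv_nonneg.2 (by linarith)
    · intro p hp
      rw [mem_filter] at hp
      show (1 - ((p : ℕ) : ℝ)⁻¹)⁻¹ ≤ _
      have hp1 : (1 : ℝ) < p := by exact_mod_cast hp.2.one_lt
      have hp0 : (0 : ℝ) < (p : ℝ) - 1 := by linarith
      have e1 : (1 - ((p : ℕ) : ℝ)⁻¹)⁻¹ = 1 / ((p : ℝ) - 1) + 1 := by
        field_simp
        ring
      have e2 : 1 / (p : ℝ) + 1 / ((p : ℝ) * (p - 1)) = 1 / ((p : ℝ) - 1) := by
        field_simp
        ring
      rw [e1, e2]
      exact Real.add_one_le_exp _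
  refine h2.trans ?_
  rw [← Real.exp_sum, Real.exp_le_exp]
  have h3 : s.filter Nat.Prime = s := by
    apply filter_true_of_mem
    exact fun p hp => (hsp p hp).1
  rw [h3, sum_add_distrib]
  have h4 : ∑ p ∈ s, 1 / ((p : ℝ) * (p - 1)) ≤ 1 := by
    have h5 : ∑ p ∈ s, 1 / ((p : ℝ) * (p - 1)) ≤ ∑ p ∈ Ioc 1 K, 1 / ((p : ℝ) * (p - 1)) := by
      apply sum_le_sum_of_subset_of_nonneg
      · intro p hp
        rw [mem_Ioc]
        exact (hsp p hp).2
      · intro p hp _
        rw [mem_Ioc] at hp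
        have : (1 : ℝ) < p := by exact_mod_cast hp.1
        have : (0 : ℝ) < (p : ℝ) - 1 := by linarith
        positivity
    have := telescope K hK
    have h6 : (0 : ℝ) ≤ 1 / (K : ℝ) := by positivity
    linarith
  have h7 : ∑ p ∈ s, 1 / (p : ℝ) = ∑ p ∈ (Icc 1 K).filter Nat.Prime, 1 / (p : ℝ) - WP P := by
    unfold WP
    rw [hs, eq_sub_iff_add_eq, sum_sdiff hP]
  linarith

/-- the arithmetic function of `gf` -/
noncomputable def gA (P : Finset ℕ) : ArithmeticFunction ℝ :=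
  ⟨fun m => if m = 0 then 0 else gf P m, by simp⟩

theorem log_le (P : Finset ℕ) (K : ℕ) :
    ∑ m ∈ Icc 1 K, gf P m * Real.log m ≤
      (Real.log 4 + 4) * K * ∑ m ∈ Icc 1 K, gf P m / m := by
  have e0 : Icc 1 K = Ioc 0 K := by
    ext x; simp [Nat.succ_le_iff]
  rw [e0]
  have h1 : ∀ m ∈ Ioc 0 K, gf P m * Real.log m ≤ (gA P * ArithmeticFunction.vonMangoldt) m := by
    intro m hm
    rw [mem_Ioc] at hm
    rw [ArithmeticFunction.mul_apply, ← ArithmeticFunction.vonMangoldt_sum,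
      ← Nat.sum_divisorsAntidiagonal' (f := fun _ y => ArithmeticFunction.vonMangoldt y), mul_sum]
    apply sum_le_sum
    rintro ⟨x, y⟩ hxy
    rw [Nat.mem_divisorsAntidiagonal] at hxy
    have hx : x ≠ 0 := by
      rintro rfl
      simp at hxy
      omega
    have hxm : x ∣ m := ⟨y, hxy.1.symm⟩
    apply mul_le_mul_of_nonneg_right _ ArithmeticFunction.vonMangoldt_nonneg
    show gf P m ≤ if x = 0 then 0 else gf P x
    rw [if_neg hx]
    exact gf_anti hxm
  refine (sum_le_sum h1).trans ?_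
  rw [ArithmeticFunction.sum_Ioc_mul_eq_sum_sum, mul_sum]
  apply sum_le_sum
  intro m hm
  rw [mem_Ioc] at hm
  have hm0 : (0 : ℝ) < m := by exact_mod_cast hm.1
  have h2 : gA P m = gf P m := by
    show (if m = 0 then 0 else gf P m) = _
    rw [if_neg (by omega)]
  have h3 : ∑ d ∈ Ioc 0 (K / m), ArithmeticFunction.vonMangoldt d ≤
      (Real.log 4 + 4) * (K / m) := by
    have h4 := Chebyshev.psi_le_const_mul_self (x := ((K : ℝ) / m)) (by positivity)
    unfold Chebyshev.psi at h4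
    rw [Nat.floor_div_natCast, Nat.floor_natCast] at h4
    exact h4
  rw [h2]
  calc gf P m * ∑ d ∈ Ioc 0 (K / m), ArithmeticFunction.vonMangoldt d
      ≤ gf P m * ((Real.log 4 + 4) * (K / m)) := mul_le_mul_of_nonneg_left h3 (gf_nonneg _ _)
    _ = (Real.log 4 + 4) * K * (gf P m / m) := by ring

theorem count_le (P : Finset ℕ) (N : ℝ) (hN : Real.exp 1 ≤ N) :
    (((Icc 1 ⌊N⌋₊).filter (fun m => ∀ p ∈ P, ¬ p ∣ m)).card : ℝ) ≤
      Real.sqrt N + (2 / Real.log N) * ∑ m ∈ Icc 1 ⌊N⌋₊, gf P m * Real.log m := by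
  have he : (1 : ℝ) < Real.exp 1 := by
    have := Real.add_one_lt_exp (x := 1) one_ne_zero
    linarith
  have hN1 : 1 < N := by linarith
  have hN0 : 0 < N := by linarith
  have hlN : 0 < Real.log N := Real.log_pos hN1
  have h0 : (((Icc 1 ⌊N⌋₊).filter (fun m => ∀ p ∈ P, ¬ p ∣ m)).card : ℝ) =
      ∑ m ∈ Icc 1 ⌊N⌋₊, gf P m := by
    unfold gf
    rw [card_filter]
    push_cast
    rfl
  rw [h0, mul_sum]
  have h1 : ∀ m ∈ Icc 1 ⌊N⌋₊, gf P m ≤ (if (m : ℝ) ≤ Real.sqrt N then 1 else 0) +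
      (2 / Real.log N) * (gf P m * Real.log m) := by
    intro m hm
    rw [mem_Icc] at hm
    have hm0 : (1 : ℝ) ≤ m := by exact_mod_cast hm.1
    have hlm : 0 ≤ Real.log m := Real.log_nonneg hm0
    have hg := gf_nonneg P m
    have hg1 : gf P m ≤ 1 := by unfold gf; split_ifs <;> norm_num
    split_ifs with h
    · have : 0 ≤ (2 / Real.log N) * (gf P m * Real.log m) := by positivity
      linarith
    · rw [not_le] at h
      have h2 : Real.log (Real.sqrt N) ≤ Real.log m :=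
        Real.log_le_log (Real.sqrt_pos.2 hN0) h.le
      rw [Real.log_sqrt hN0.le] at h2
      have h3 : 1 ≤ 2 / Real.log N * Real.log m := by
        rw [div_mul_eq_mul_div, le_div_iff₀ hlN]
        linarith
      calc gf P m = gf P m * 1 := (mul_one _).symm
        _ ≤ gf P m * (2 / Real.log N * Real.log m) := mul_le_mul_of_nonneg_left h3 hg
        _ = 0 + (2 / Real.log N) * (gf P m * Real.log m) := by ring
  refine (sum_le_sum h1).trans ?_
  rw [sum_add_distrib]
  apply add_le_add _ le_rfl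
  rw [← sum_filter, sum_const, nsmul_eq_mul, mul_one]
  have h2 : (Icc 1 ⌊N⌋₊).filter (fun m : ℕ => (m : ℝ) ≤ Real.sqrt N) ⊆ Icc 1 ⌊Real.sqrt N⌋₊ := by
    intro m hm
    rw [mem_filter, mem_Icc] at hm
    rw [mem_Icc]
    exact ⟨hm.1.1, Nat.le_floor hm.2⟩
  have h3 := card_le_card h2
  rw [Nat.card_Icc, Nat.add_sub_cancel] at h3
  have h4 : ((⌊Real.sqrt N⌋₊ : ℕ) : ℝ) ≤ Real.sqrt N := Nat.floor_le (Real.sqrt_nonneg _)
  have h5 : ((((Icc 1 ⌊N⌋₊).filter (fun m : ℕ => (m : ℝ) ≤ Real.sqrt N)).card : ℕ) : ℝ) ≤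
      ((⌊Real.sqrt N⌋₊ : ℕ) : ℝ) := by exact_mod_cast h3
  linarith

theorem sv : S_SV := by
  obtain ⟨C₁, hC₁, hM⟩ := Pool.Agent.H376R2.MR.mert_bdd
  obtain ⟨C₂, hC₂, hWb⟩ := WP_bound
  have hl4 : 0 < Real.log 4 + 4 := by
    have := Real.log_nonneg (x := 4) (by norm_num)
    linarith
  refine ⟨2 * Real.exp C₂ + 2 * ((Real.log 4 + 4) * Real.exp (C₁ + 1)), by positivity, ?_⟩
  intro a b N ha hab hN
  set P := PS a b with hP
  set K := ⌊N⌋₊ with hK
  set W := WP P with hW
  have hb1 : (1 : ℝ) ≤ b := by exact_mod_cast ha.trans hab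
  have ha1 : (1 : ℝ) ≤ a := by exact_mod_cast ha
  have heN : Real.exp 1 ≤ N := (Real.exp_le_exp.2 hb1).trans hN
  have he : (2 : ℝ) < Real.exp 1 := by
    have := Real.add_one_lt_exp (x := 1) one_ne_zero
    linarith
  have hN0 : 0 < N := by linarith
  have hlN : 1 ≤ Real.log N := by
    have := Real.log_le_log (Real.exp_pos 1) heN
    rwa [Real.log_exp] at this
  have hblN : (b : ℝ) ≤ Real.log N := by
    have := Real.log_le_log (Real.exp_pos _) hN
    rwa [Real.log_exp] at this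
  have hK1 : 2 ≤ K := Nat.le_floor (by push_cast; linarith)
  have hKN : (K : ℝ) ≤ N := Nat.floor_le hN0.le
  have hK0 : (1 : ℝ) < K := by exact_mod_cast (show 1 < K by omega)
  -- first term
  have h1 : Real.sqrt N ≤ 2 * Real.exp C₂ * N * Real.exp (-W) := by
    have h2 : W ≤ Real.log b + C₂ := by
      have h3 := (abs_le.1 (hWb a b ha hab)).2
      have h4 : Real.log ((b : ℝ) / a) ≤ Real.log b := by
        apply Real.log_le_log (by positivity)
        exact div_le_self (by linarith) ha1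
      linarith
    have h3 : Real.exp W ≤ b * Real.exp C₂ := by
      have := Real.exp_le_exp.2 h2
      rwa [Real.exp_add, Real.exp_log (by linarith)] at this
    have h4 : Real.log N ≤ 2 * Real.sqrt N := by
      have h5 : Real.log (Real.sqrt N) ≤ Real.sqrt N - 1 :=
        Real.log_le_sub_one_of_pos (Real.sqrt_pos.2 hN0)
      rw [Real.log_sqrt hN0.le] at h5
      linarith
    have h5 : Real.exp W ≤ 2 * Real.sqrt N * Real.exp C₂ := by
      refine h3.trans (mul_le_mul_of_nonneg_right (by linarith) (Real.exp_pos _).le)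
    have h6 : Real.sqrt N * Real.sqrt N = N := Real.mul_self_sqrt hN0.le
    rw [Real.exp_neg, ← div_eq_mul_inv, le_div_iff₀ (Real.exp_pos _)]
    calc Real.sqrt N * Real.exp W ≤ Real.sqrt N * (2 * Real.sqrt N * Real.exp C₂) :=
          mul_le_mul_of_nonneg_left h5 (Real.sqrt_nonneg _)
      _ = 2 * Real.exp C₂ * (Real.sqrt N * Real.sqrt N) := by ring
      _ = 2 * Real.exp C₂ * N := by rw [h6]
  -- second term
  have hPs : P ⊆ (Icc 1 K).filter Nat.Prime := by
    intro p hp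
    rw [hP, mem_PS] at hp
    rw [mem_filter, mem_Icc]
    refine ⟨⟨hp.1.one_lt.le, Nat.le_floor ?_⟩, hp.1⟩
    have hp0 : (0 : ℝ) < p := by exact_mod_cast hp.1.pos
    exact ((Real.log_lt_iff_lt_exp hp0).1 hp.2.2).le.trans hN
  have h2 := harm_le P K (by omega) hPs
  have h3 := (abs_le.1 (hM K)).2
  have hlK : 0 < Real.log K := Real.log_pos hK0
  have h4 : ∑ m ∈ Icc 1 K, gf P m / m ≤ Real.exp (C₁ + 1) * Real.log N * Real.exp (-W) := by
    refine h2.trans ?_
    have h5 : ∑ p ∈ (Icc 1 K).filter Nat.Prime, 1 / (p : ℝ) - WP P + 1 ≤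
        (C₁ + 1) + Real.log (Real.log K) + -W := by
      rw [hW]; linarith
    refine (Real.exp_le_exp.2 h5).trans ?_
    rw [Real.exp_add, Real.exp_add, Real.exp_log hlK]
    apply mul_le_mul_of_nonneg_right _ (Real.exp_pos _).le
    apply mul_le_mul_of_nonneg_left _ (Real.exp_pos _).le
    exact Real.log_le_log (by linarith) hKN
  have h5 := log_le P K
  have h6 := count_le P N heN
  have h7 : (2 / Real.log N) * ∑ m ∈ Icc 1 K, gf P m * Real.log m ≤
      2 * ((Real.log 4 + 4) * Real.exp (C₁ + 1)) * N * Real.exp (-W) := by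
    have hl0 : 0 < Real.log N := by linarith
    calc (2 / Real.log N) * ∑ m ∈ Icc 1 K, gf P m * Real.log m
        ≤ (2 / Real.log N) * ((Real.log 4 + 4) * K * ∑ m ∈ Icc 1 K, gf P m / m) :=
          mul_le_mul_of_nonneg_left h5 (by positivity)
      _ ≤ (2 / Real.log N) * ((Real.log 4 + 4) * N *
            (Real.exp (C₁ + 1) * Real.log N * Real.exp (-W))) := by
          apply mul_le_mul_of_nonneg_left _ (by positivity)
          apply mul_le_mul _ h4 (sum_nonneg fun m _ => ?_) (by positivity)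
          · exact mul_le_mul_of_nonneg_left hKN hl4.le
          · exact div_nonneg (gf_nonneg _ _) (Nat.cast_nonneg _)
      _ = _ := by
          field_simp
  calc _ ≤ _ := h6
    _ ≤ 2 * Real.exp C₂ * N * Real.exp (-W) +
        2 * ((Real.log 4 + 4) * Real.exp (C₁ + 1)) * N * Real.exp (-W) := add_le_add h1 h7
    _ = _ := by ring

end Pool.Agent.Y500.AD
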