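import Pool.Agent.Y957.AD.Basic

/-!
Project AD, part AD-TK: the Turan-Kubilius step for window sums.
-/

set_option autoImplicit false

namespace Pool.Agent.Y500.AD

open Finset MeasureTheory Filter
open Pool.Agent.Y957.AD

/-- number of primes of `P` dividing `n` -/
noncomputable def om (P : Finset ℕ) (n : ℕ) : ℝ := ∑ p ∈ P, if p ∣ n then (1 : ℝ) else 0

theorem cnt (K d : ℕ) : ∑ n ∈ Icc 1 K, (if d ∣ n then (1 : ℝ) else 0) = ((K / d : ℕ) : ℝ) := by
  rw [← Finset.sum_filter, Finset.sum_const, nsmul_eq_mul, mul_one]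
  have h := Nat.Ioc_filter_dvd_card_eq_div K d
  have e : Icc 1 K = Ioc 0 K := by
    ext x; simp [Nat.succ_le_iff]
  rw [e, h]

theorem om_sum {P : Finset ℕ} {N : ℝ} :
    N * WP P - P.card ≤ ∑ n ∈ Icc 1 ⌊N⌋₊, om P n := by
  unfold om WP
  rw [sum_comm]
  have h1 : N * ∑ p ∈ P, 1 / (p : ℝ) - P.card = ∑ p ∈ P, (N / p - 1) := by
    rw [sum_sub_distrib, mul_sum]
    simp [div_eq_mul_inv]
  rw [h1]
  apply sum_le_sum
  intro p hp
  rw [cnt, ← Nat.floor_div_natCast]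
  have := Nat.lt_floor_add_one (N / (p : ℝ))
  linarith

theorem om_sq {P : Finset ℕ} {N : ℝ} (hN : 0 ≤ N) (hP : ∀ p ∈ P, p.Prime) :
    ∑ n ∈ Icc 1 ⌊N⌋₊, (om P n) ^ 2 ≤ N * (WP P ^ 2 + WP P) := by
  have h1 : ∀ n, (om P n) ^ 2 = ∑ p ∈ P, ∑ q ∈ P, (if p ∣ n then (1 : ℝ) else 0) *
      (if q ∣ n then (1 : ℝ) else 0) := by
    intro n
    unfold om
    rw [pow_two, sum_mul_sum]
  have h2 : ∑ n ∈ Icc 1 ⌊N⌋₊, (om P n) ^ 2 = ∑ p ∈ P, ∑ q ∈ P, ∑ n ∈ Icc 1 ⌊N⌋₊,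
      (if p ∣ n then (1 : ℝ) else 0) * (if q ∣ n then (1 : ℝ) else 0) := by
    rw [sum_congr rfl fun n _ => h1 n, sum_comm]
    exact sum_congr rfl fun p _ => sum_comm
  have hcnt : ∀ d : ℕ, ∑ n ∈ Icc 1 ⌊N⌋₊, (if d ∣ n then (1 : ℝ) else 0) ≤ N / d := by
    intro d
    rw [cnt, ← Nat.floor_div_natCast]
    exact Nat.floor_le (by positivity)
  have h3 : ∀ p ∈ P, ∀ q ∈ P, ∑ n ∈ Icc 1 ⌊N⌋₊,
      (if p ∣ n then (1 : ℝ) else 0) * (if q ∣ n then (1 : ℝ) else 0) ≤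
      N * ((1 / p) * (1 / q)) + (if p = q then N * (1 / q) else 0) := by
    intro p hp q hq
    by_cases hpq : p = q
    · subst hpq
      have e : ∀ n, (if p ∣ n then (1 : ℝ) else 0) * (if p ∣ n then (1 : ℝ) else 0) =
          (if p ∣ n then (1 : ℝ) else 0) := by
        intro n; split_ifs <;> simp
      rw [sum_congr rfl fun n _ => e n, if_pos rfl]
      have := hcnt p
      have h0 : 0 ≤ N * ((1 / (p : ℝ)) * (1 / p)) := by positivity
      have h4 : N / (p : ℝ) = N * (1 / p) := by ring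
      linarith
    · have hco : Nat.Coprime p q := (Nat.coprime_primes (hP p hp) (hP q hq)).2 hpq
      have e : ∀ n, (if p ∣ n then (1 : ℝ) else 0) * (if q ∣ n then (1 : ℝ) else 0) =
          (if p * q ∣ n then (1 : ℝ) else 0) := by
        intro n
        by_cases h1 : p ∣ n
        · by_cases h2 : q ∣ n
          · rw [if_pos h1, if_pos h2, if_pos (Nat.Coprime.mul_dvd_of_dvd_of_dvd hco h1 h2), mul_one]
          · have : ¬ p * q ∣ n := fun h => h2 (dvd_trans (dvd_mul_left _ _) h)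
            rw [if_neg h2, if_neg this, mul_zero]
        · have : ¬ p * q ∣ n := fun h => h1 (dvd_trans (dvd_mul_right _ _) h)
          rw [if_neg h1, if_neg this, zero_mul]
      rw [sum_congr rfl fun n _ => e n, if_neg hpq, add_zero]
      have := hcnt (p * q)
      have h4 : N / ((p * q : ℕ) : ℝ) = N * ((1 / p) * (1 / q)) := by
        push_cast
        rw [div_mul_div_comm, one_mul, mul_one_div]
      rw [← h4]
      exact this
  rw [h2]
  calc ∑ p ∈ P, ∑ q ∈ P, ∑ n ∈ Icc 1 ⌊N⌋₊,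
      (if p ∣ n then (1 : ℝ) else 0) * (if q ∣ n then (1 : ℝ) else 0)
      ≤ ∑ p ∈ P, ∑ q ∈ P, (N * ((1 / p) * (1 / q)) + (if p = q then N * (1 / q) else 0)) :=
        sum_le_sum fun p hp => sum_le_sum fun q hq => h3 p hp q hq
    _ = N * (WP P ^ 2 + WP P) := by
        simp only [sum_add_distrib, sum_ite_eq]
        have e1 : ∑ p ∈ P, ∑ q ∈ P, N * ((1 / (p : ℝ)) * (1 / q)) = N * WP P ^ 2 := by
          unfold WP
          rw [pow_two, sum_mul_sum, mul_sum]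
          exact sum_congr rfl fun p _ => by rw [mul_sum]
        have e2 : ∑ p ∈ P, (if p ∈ P then N * (1 / (p : ℝ)) else 0) = N * WP P := by
          unfold WP
          rw [mul_sum]
          exact sum_congr rfl fun p hp => by rw [if_pos hp]
        rw [e1, e2]
        ring

/-- Turan-Kubilius -/
theorem om_var {P : Finset ℕ} {N Q : ℝ} (hP : ∀ p ∈ P, p.Prime ∧ (p : ℝ) ≤ Q) (hQ : 1 ≤ Q)
    (hN : Q ^ 2 ≤ N) : ∑ n ∈ Icc 1 ⌊N⌋₊, (om P n - WP P) ^ 2 ≤ 3 * N * WP P := by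
  have hQN : Q ≤ N := by nlinarith
  have hN0 : 0 ≤ N := by linarith
  have hW := WP_nonneg P
  have hc : (P.card : ℝ) ≤ N := by
    have h1 : P ⊆ Icc 1 ⌊Q⌋₊ := by
      intro p hp
      rw [mem_Icc]
      exact ⟨(hP p hp).1.one_lt.le, Nat.le_floor (hP p hp).2⟩
    have h2 : P.card ≤ ⌊Q⌋₊ := by simpa using card_le_card h1
    have h3 : ((⌊Q⌋₊ : ℕ) : ℝ) ≤ Q := Nat.floor_le (by linarith)
    have h4 : (P.card : ℝ) ≤ (⌊Q⌋₊ : ℕ) := by exact_mod_cast h2
    linarith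
  have h1 := om_sum (P := P) (N := N)
  have h2 := om_sq hN0 fun p hp => (hP p hp).1
  have h3 : ∑ n ∈ Icc 1 ⌊N⌋₊, (om P n - WP P) ^ 2 =
      ∑ n ∈ Icc 1 ⌊N⌋₊, (om P n) ^ 2 - 2 * WP P * ∑ n ∈ Icc 1 ⌊N⌋₊, om P n +
        WP P ^ 2 * (⌊N⌋₊ : ℕ) := by
    rw [mul_sum, ← sum_sub_distrib]
    have : WP P ^ 2 * ((⌊N⌋₊ : ℕ) : ℝ) = ∑ n ∈ Icc 1 ⌊N⌋₊, WP P ^ 2 := by
      simp [mul_comm]
    rw [this, ← sum_add_distrib]
    exact sum_congr rfl fun n _ => by ring
  have h4 : ((⌊N⌋₊ : ℕ) : ℝ) ≤ N := Nat.floor_le hN0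
  rw [h3]
  have h5 : WP P ^ 2 * ((⌊N⌋₊ : ℕ) : ℝ) ≤ WP P ^ 2 * N :=
    mul_le_mul_of_nonneg_left h4 (sq_nonneg _)
  have h6 : 2 * WP P * (N * WP P - P.card) ≤ 2 * WP P * ∑ n ∈ Icc 1 ⌊N⌋₊, om P n :=
    mul_le_mul_of_nonneg_left h1 (by linarith)
  have h7 : 2 * WP P * P.card ≤ 2 * WP P * N := mul_le_mul_of_nonneg_left hc (by linarith)
  nlinarith

theorem om_l1 {P : Finset ℕ} {N Q : ℝ} (hP : ∀ p ∈ P, p.Prime ∧ (p : ℝ) ≤ Q) (hQ : 1 ≤ Q)
    (hN : Q ^ 2 ≤ N) : ∑ n ∈ Icc 1 ⌊N⌋₊, |om P n - WP P| ≤ N * Real.sqrt (3 * WP P) := by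
  have hN0 : 0 ≤ N := by nlinarith
  have hW := WP_nonneg P
  have h1 : (∑ n ∈ Icc 1 ⌊N⌋₊, |om P n - WP P|) ^ 2 ≤
      (⌊N⌋₊ : ℕ) * ∑ n ∈ Icc 1 ⌊N⌋₊, (om P n - WP P) ^ 2 := by
    have := sq_sum_le_card_mul_sum_sq (s := Icc 1 ⌊N⌋₊) (f := fun n => |om P n - WP P|)
    simpa using this
  have h2 := om_var hP hQ hN
  have h4 : ((⌊N⌋₊ : ℕ) : ℝ) ≤ N := Nat.floor_le hN0
  have h5 : (∑ n ∈ Icc 1 ⌊N⌋₊, |om P n - WP P|) ^ 2 ≤ N ^ 2 * (3 * WP P) := by
    calc _ ≤ _ := h1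
      _ ≤ N * (3 * N * WP P) := mul_le_mul h4 h2 (sum_nonneg fun _ _ => sq_nonneg _) hN0
      _ = _ := by ring
  have h6 : N * Real.sqrt (3 * WP P) = Real.sqrt (N ^ 2 * (3 * WP P)) := by
    rw [Real.sqrt_mul (sq_nonneg _), Real.sqrt_sq hN0]
  rw [h6]
  exact Real.le_sqrt_of_sq_le h5

/-- the weights of the window -/
theorem win_le {F : ℝ → ℂ} {w B : ℝ} (hF : Win F w B) {n : ℕ} (hn : 1 ≤ n) (u : ℝ) :
    ‖F (u + Real.log n)‖ / n ≤ 1 / Real.exp (w - u) := by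
  have hn' : (0 : ℝ) < n := by exact_mod_cast hn
  rw [div_le_iff₀ hn']
  by_cases h : u + Real.log n ≤ w
  · refine (hF.le _ h).trans (le_of_eq ?_)
    have : u + Real.log n - w = Real.log n + -(w - u) := by ring
    rw [this, Real.exp_add, Real.exp_log hn', Real.exp_neg]
    ring
  · rw [hF.zero _ (not_le.1 h), norm_zero]
    positivity

theorem win_zero {F : ℝ → ℂ} {w B : ℝ} (hF : Win F w B) {n : ℕ} (hn : 1 ≤ n) {u : ℝ}
    (h : Real.exp (w - u) < n) : F (u + Real.log n) = 0 := by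
  have hn' : (0 : ℝ) < n := by exact_mod_cast hn
  apply hF.zero
  have := (Real.lt_log_iff_exp_lt hn').2 h
  linarith

theorem mu_norm_le (n : ℕ) : ‖mu n‖ ≤ 1 := by
  unfold mu
  have := ArithmeticFunction.abs_moebius_le_one (n := n)
  rw [Complex.norm_intCast]
  exact_mod_cast this

theorem mu_prime_mul {p m : ℕ} (hp : p.Prime) (h : ¬ p ∣ m) : mu (p * m) = -mu m := by
  unfold mu
  have hco : Nat.Coprime p m := (Nat.Prime.coprime_iff_not_dvd hp).2 h
  rw [ArithmeticFunction.isMultiplicative_moebius.map_mul_of_coprime hco,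
    ArithmeticFunction.moebius_apply_prime hp]
  push_cast
  ring

theorem mu_prime_mul' {p m : ℕ} (hp : p.Prime) (h : p ∣ m) : mu (p * m) = 0 := by
  unfold mu
  have : ¬ Squarefree (p * m) := by
    intro hs
    obtain ⟨k, rfl⟩ := h
    have := hs p ⟨k, by ring⟩
    exact hp.one_lt.ne' (Nat.isUnit_iff.1 this)
  rw [ArithmeticFunction.moebius_eq_zero_of_not_squarefree this]
  simp

/-- the contribution of one prime -/
theorem prime_part {F : ℝ → ℂ} {w B u : ℝ} (hF : Win F w B) (hu : 0 ≤ u) {p : ℕ} (hp : p.Prime) :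
    ‖(∑ n ∈ Icc 1 ⌊Real.exp w⌋₊, (if p ∣ n then mu n / (n : ℂ) * F (u + Real.log n) else 0)) +
      (1 / (p : ℂ)) * GG mu F w (u + Real.log p)‖ ≤ 1 / (p : ℝ) ^ 2 := by
  set M := ⌊Real.exp w⌋₊ with hM
  set N := Real.exp (w - u) with hN
  have hN0 : 0 < N := Real.exp_pos _
  have hNw : N ≤ Real.exp w := Real.exp_le_exp.2 (by linarith)
  have hp0 : (0 : ℝ) < p := by exact_mod_cast hp.pos
  have hpC : (p : ℂ) ≠ 0 := by exact_mod_cast hp.ne_zero
  -- sums over multiples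
  have h1 : (∑ n ∈ Icc 1 M, (if p ∣ n then mu n / (n : ℂ) * F (u + Real.log n) else 0)) =
      ∑ m ∈ Icc 1 M, mu (p * m) / ((p * m : ℕ) : ℂ) * F (u + Real.log ((p * m : ℕ) : ℝ)) := by
    have e1 : (∑ n ∈ Icc 1 M, (if p ∣ n then mu n / (n : ℂ) * F (u + Real.log n) else 0)) =
        ∑ n ∈ (Icc 1 (p * M)).filter (p ∣ ·), mu n / (n : ℂ) * F (u + Real.log n) := by
      rw [sum_filter]
      apply sum_subset
      · exact Icc_subset_Icc le_rfl (Nat.le_mul_of_pos_left _ hp.pos)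
      · intro n hn hn'
        rw [mem_Icc] at hn hn'
        split_ifs with hd
        · have hlt : M < n := by
            by_contra hcon
            exact hn' ⟨hn.1, not_lt.1 hcon⟩
          have : Real.exp (w - u) < n := lt_of_le_of_lt hNw ((Nat.floor_lt (Real.exp_pos _).le).1 hlt)
          rw [win_zero hF hn.1 this, mul_zero]
        · rfl
    rw [e1]
    symm
    apply sum_bij (fun m _ => p * m)
    · intro m hm
      rw [mem_Icc] at hm
      rw [mem_filter, mem_Icc]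
      exact ⟨⟨Nat.mul_pos hp.pos hm.1, Nat.mul_le_mul_left _ hm.2⟩, dvd_mul_right _ _⟩
    · intro a _ b _ hab
      exact Nat.eq_of_mul_eq_mul_left hp.pos hab
    · intro n hn
      rw [mem_filter, mem_Icc] at hn
      obtain ⟨⟨h1, h2⟩, k, rfl⟩ := hn
      refine ⟨k, ?_, rfl⟩
      rw [mem_Icc]
      exact ⟨Nat.pos_of_mul_pos_left h1, Nat.le_of_mul_le_mul_left h2 hp.pos⟩
    · intro m hm
      rfl
  have h2 : (1 / (p : ℂ)) * GG mu F w (u + Real.log p) =
      ∑ m ∈ Icc 1 M, mu m / ((p * m : ℕ) : ℂ) * F (u + Real.log ((p * m : ℕ) : ℝ)) := by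
    unfold GG
    rw [mul_sum]
    apply sum_congr rfl
    intro m hm
    rw [mem_Icc] at hm
    have hm0 : (0 : ℝ) < m := by exact_mod_cast hm.1
    have e : Real.log ((p * m : ℕ) : ℝ) = Real.log p + Real.log m := by
      push_cast
      exact Real.log_mul hp0.ne' hm0.ne'
    rw [e, ← add_assoc]
    push_cast
    have hmC : (m : ℂ) ≠ 0 := by exact_mod_cast hm0.ne'
    field_simp
  rw [h1, h2, ← sum_add_distrib]
  have h3 : ∀ m ∈ Icc 1 M, ‖mu (p * m) / ((p * m : ℕ) : ℂ) * F (u + Real.log ((p * m : ℕ) : ℝ)) +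
      mu m / ((p * m : ℕ) : ℂ) * F (u + Real.log ((p * m : ℕ) : ℝ))‖ ≤
      if p ∣ m ∧ ((p * m : ℕ) : ℝ) ≤ N then 1 / N else 0 := by
    intro m hm
    rw [mem_Icc] at hm
    have hpm : 1 ≤ p * m := Nat.mul_pos hp.pos hm.1
    by_cases hd : p ∣ m
    · by_cases hle : ((p * m : ℕ) : ℝ) ≤ N
      · rw [if_pos ⟨hd, hle⟩, mu_prime_mul' hp hd, zero_div, zero_mul, zero_add, norm_mul, norm_div,
          Complex.norm_natCast]
        have h4 := win_le hF hpm u
        have h5 := mu_norm_le m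
        calc ‖mu m‖ / ((p * m : ℕ) : ℝ) * ‖F (u + Real.log ((p * m : ℕ) : ℝ))‖
            = ‖mu m‖ * (‖F (u + Real.log ((p * m : ℕ) : ℝ))‖ / ((p * m : ℕ) : ℝ)) := by ring
          _ ≤ 1 * (1 / N) := mul_le_mul h5 h4 (by positivity) zero_le_one
          _ = 1 / N := one_mul _
      · rw [if_neg (fun h => hle h.2), win_zero hF hpm (not_le.1 hle)]
        simp
    · rw [if_neg (fun h => hd h.1), mu_prime_mul hp hd]
      have : -mu m / ((p * m : ℕ) : ℂ) * F (u + Real.log ((p * m : ℕ) : ℝ)) +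
          mu m / ((p * m : ℕ) : ℂ) * F (u + Real.log ((p * m : ℕ) : ℝ)) = 0 := by ring
      rw [this, norm_zero]
  refine (norm_sum_le _ _).trans ((sum_le_sum h3).trans ?_)
  -- count the multiples
  have h4 : ∑ m ∈ Icc 1 M, (if p ∣ m ∧ ((p * m : ℕ) : ℝ) ≤ N then 1 / N else 0) ≤
      ∑ m ∈ Icc 1 ⌊N / p⌋₊, (if p ∣ m then (1 : ℝ) else 0) * (1 / N) := by
    rw [← sum_filter]
    have e2 : ∑ m ∈ Icc 1 ⌊N / p⌋₊, (if p ∣ m then (1 : ℝ) else 0) * (1 / N) =
        ∑ m ∈ (Icc 1 ⌊N / p⌋₊).filter (p ∣ ·), (1 / N) := by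
      rw [sum_filter]
      exact sum_congr rfl fun m _ => by split_ifs <;> simp
    rw [e2]
    apply sum_le_sum_of_subset_of_nonneg
    · intro m hm
      rw [mem_filter, mem_Icc] at hm
      rw [mem_filter, mem_Icc]
      refine ⟨⟨hm.1.1, Nat.le_floor ?_⟩, hm.2.1⟩
      rw [le_div_iff₀ hp0]
      have := hm.2.2
      push_cast at this
      linarith
    · intro _ _ _
      positivity
  refine h4.trans ?_
  rw [← sum_mul, cnt, ← Nat.floor_div_natCast]
  have h5 : ((⌊N / p / p⌋₊ : ℕ) : ℝ) ≤ N / p / p := Nat.floor_le (by positivity)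
  calc ((⌊N / p / p⌋₊ : ℕ) : ℝ) * (1 / N) ≤ (N / p / p) * (1 / N) :=
        mul_le_mul_of_nonneg_right h5 (by positivity)
    _ = 1 / (p : ℝ) ^ 2 := by field_simp

theorem sum_inv_sq (P : Finset ℕ) (hP : ∀ p ∈ P, p.Prime) : ∑ p ∈ P, 1 / (p : ℝ) ^ 2 ≤ 1 := by
  classical
  obtain ⟨K, hK⟩ : ∃ K : ℕ, ∀ p ∈ P, p ≤ K := ⟨P.sup id, fun p hp => le_sup (f := id) hp⟩
  have h1 : P ⊆ Ioc 1 (max K 1) := by
    intro p hp
    rw [mem_Ioc]
    exact ⟨(hP p hp).one_lt, le_trans (hK p hp) (le_max_left _ _)⟩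
  have h2 : ∀ L : ℕ, 1 ≤ L → ∑ p ∈ Ioc 1 L, 1 / (p : ℝ) ^ 2 ≤ 1 - 1 / (L : ℝ) := by
    intro L hL
    induction L, hL using Nat.le_induction with
    | base => simp
    | succ L hL ih =>
      rw [sum_Ioc_succ_top (by omega)]
      have hL0 : (0 : ℝ) < L := by exact_mod_cast hL
      have e : 1 / ((L + 1 : ℕ) : ℝ) ^ 2 ≤ 1 / L - 1 / ((L + 1 : ℕ) : ℝ) := by
        push_cast
        rw [div_sub_div _ _ hL0.ne' (by positivity), div_le_div_iff₀ (by positivity) (by positivity)]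
        nlinarith
      linarith
  refine (sum_le_sum_of_subset_of_nonneg (f := fun p : ℕ => 1 / (p : ℝ) ^ 2) h1
    fun _ _ _ => by positivity).trans ?_
  have h3 := h2 (max K 1) (le_max_right _ _)
  have : (0 : ℝ) ≤ 1 / ((max K 1 : ℕ) : ℝ) := by positivity
  linarith

theorem tk : S_TK := by
  refine ⟨3, by norm_num, ?_⟩
  intro F w B hF P Q hP hW u hu hQ hN
  set N := Real.exp (w - u) with hNdef
  have hN0 : 0 < N := Real.exp_pos _
  have hNw : N ≤ Real.exp w := Real.exp_le_exp.2 (by linarith)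
  have hW0 : 0 < WP P := by linarith
  have hWC : ((WP P : ℝ) : ℂ) ≠ 0 := by exact_mod_cast hW0.ne'
  set G := GG mu F w u with hG
  set S := ∑ p ∈ P, (1 / (p : ℂ)) * GG mu F w (u + Real.log p) with hS
  set M := ⌊Real.exp w⌋₊ with hM
  have key : ‖((WP P : ℝ) : ℂ) * G + S‖ ≤ Real.sqrt (3 * WP P) + 1 := by
    have e1 : ((WP P : ℝ) : ℂ) * G + S =
        ∑ n ∈ Icc 1 M, ((WP P - om P n : ℝ) : ℂ) * (mu n / (n : ℂ) * F (u + Real.log n)) +
        ∑ p ∈ P, ((∑ n ∈ Icc 1 M, (if p ∣ n then mu n / (n : ℂ) * F (u + Real.log n) else 0)) +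
          (1 / (p : ℂ)) * GG mu F w (u + Real.log p)) := by
      rw [sum_add_distrib, ← hS, sum_comm, ← add_assoc, ← sum_add_distrib]
      congr 1
      rw [hG]
      unfold GG
      rw [mul_sum]
      apply sum_congr rfl
      intro n _
      have : ∑ p ∈ P, (if p ∣ n then mu n / (n : ℂ) * F (u + Real.log n) else 0) =
          ((om P n : ℝ) : ℂ) * (mu n / (n : ℂ) * F (u + Real.log n)) := by
        unfold om
        push_cast
        rw [sum_mul]
        exact sum_congr rfl fun p _ => by split_ifs <;> simp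
      rw [this]
      push_cast
      ring
    rw [e1]
    refine (norm_add_le _ _).trans (add_le_add ?_ ?_)
    · have h1 : ∀ n ∈ Icc 1 M, ‖((WP P - om P n : ℝ) : ℂ) *
          (mu n / (n : ℂ) * F (u + Real.log n))‖ ≤
          if (n : ℝ) ≤ N then |om P n - WP P| * (1 / N) else 0 := by
        intro n hn
        rw [mem_Icc] at hn
        split_ifs with hle
        · rw [norm_mul, Complex.norm_real, Real.norm_eq_abs, abs_sub_comm]
          apply mul_le_mul_of_nonneg_left _ (abs_nonneg _)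
          rw [norm_mul, norm_div, Complex.norm_natCast]
          have h4 := win_le hF hn.1 u
          have h5 := mu_norm_le n
          calc ‖mu n‖ / (n : ℝ) * ‖F (u + Real.log n)‖
              = ‖mu n‖ * (‖F (u + Real.log n)‖ / n) := by ring
            _ ≤ 1 * (1 / N) := mul_le_mul h5 h4 (by positivity) zero_le_one
            _ = 1 / N := one_mul _
        · rw [win_zero hF hn.1 (not_le.1 hle)]
          simp
      refine (norm_sum_le _ _).trans ((sum_le_sum h1).trans ?_)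
      have h2 : ∑ n ∈ Icc 1 M, (if (n : ℝ) ≤ N then |om P n - WP P| * (1 / N) else 0) ≤
          ∑ n ∈ Icc 1 ⌊N⌋₊, |om P n - WP P| * (1 / N) := by
        rw [← sum_filter]
        apply sum_le_sum_of_subset_of_nonneg
        · intro n hn
          rw [mem_filter, mem_Icc] at hn
          rw [mem_Icc]
          exact ⟨hn.1.1, Nat.le_floor hn.2⟩
        · intro _ _ _
          positivity
      refine h2.trans ?_
      rw [← sum_mul]
      have h3 := om_l1 hP hQ hN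
      calc (∑ n ∈ Icc 1 ⌊N⌋₊, |om P n - WP P|) * (1 / N)
          ≤ (N * Real.sqrt (3 * WP P)) * (1 / N) := mul_le_mul_of_nonneg_right h3 (by positivity)
        _ = Real.sqrt (3 * WP P) := by field_simp
    · refine (norm_sum_le _ _).trans ?_
      refine (sum_le_sum fun p hp => prime_part hF hu (hP p hp).1).trans ?_
      exact sum_inv_sq P fun p hp => (hP p hp).1
  have e2 : G + ((1 / WP P : ℝ) : ℂ) * S = ((1 / WP P : ℝ) : ℂ) * (((WP P : ℝ) : ℂ) * G + S) := by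
    push_cast
    field_simp
  rw [e2, norm_mul, Complex.norm_real, Real.norm_of_nonneg (by positivity)]
  have hsq : 1 ≤ Real.sqrt (WP P) := by
    rw [Real.one_le_sqrt]; exact hW
  have h3 : Real.sqrt (3 * WP P) ≤ 2 * Real.sqrt (WP P) := by
    rw [Real.sqrt_mul (by norm_num)]
    apply mul_le_mul_of_nonneg_right _ (Real.sqrt_nonneg _)
    rw [Real.sqrt_le_left (by norm_num)]
    norm_num
  have h4 : ‖((WP P : ℝ) : ℂ) * G + S‖ ≤ 3 * Real.sqrt (WP P) := by linarith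
  calc (1 / WP P) * ‖((WP P : ℝ) : ℂ) * G + S‖ ≤ (1 / WP P) * (3 * Real.sqrt (WP P)) :=
        mul_le_mul_of_nonneg_left h4 (by positivity)
    _ = 3 / Real.sqrt (WP P) := by
        have hs : Real.sqrt (WP P) * Real.sqrt (WP P) = WP P := Real.mul_self_sqrt hW0.le
        have hs0 : Real.sqrt (WP P) ≠ 0 := by positivity
        rw [div_mul_eq_mul_div, one_mul, div_eq_div_iff hW0.ne' hs0]
        rw [mul_assoc, hs]

end Pool.Agent.Y500.AD
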